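import Pool.Agent.H959.Ryab.Final

open MeasureTheory Metric
open scoped Real ComplexConjugate

namespace Pool.Agent.Results.MP_397fae_an.RyabykhConverse

/-- The area measure on the unit disc `𝔻`, normalised so that `σ(𝔻) = 1`. -/
noncomputable def σ : Measure ℂ := (ENNReal.ofReal π)⁻¹ • (volume.restrict (ball (0:ℂ) 1))

/-- Membership in the Bergman space `A^p`: analytic on `𝔻` with `∫_𝔻 |f|^p dσ < ∞`. -/
def IsBergman (p : ℝ) (f : ℂ → ℂ) : Prop :=
  DifferentiableOn ℂ f (ball (0:ℂ) 1) ∧ Integrable (fun z => ‖f z‖ ^ p) σ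

/-- The norm `(∫_𝔻 |f|^p dσ)^{1/p}` of `A^p`. -/
noncomputable def bergmanNorm (p : ℝ) (f : ℂ → ℂ) : ℝ := (∫ z, ‖f z‖ ^ p ∂σ) ^ (1 / p)

/-- The functional `φ(f) = ∫_𝔻 f conj(k) dσ` with kernel `k`. -/
noncomputable def functional (k f : ℂ → ℂ) : ℂ := ∫ z, f z * conj (k z) ∂σ

/-- `F` is an extremal function for the kernel `k`: `F ∈ A^p`, `‖F‖ = 1`, and
`Re φ(g) ≤ Re φ(F)` for every `g ∈ A^p` with `‖g‖ = 1`. -/
def IsExtremal (p : ℝ) (k F : ℂ → ℂ) : Prop :=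
  IsBergman p F ∧ bergmanNorm p F = 1 ∧
    ∀ g : ℂ → ℂ, IsBergman p g → bergmanNorm p g = 1 →
      (functional k g).re ≤ (functional k F).re

/-- The integral mean `M_s(f, r) = ((1/2π) ∫_0^{2π} |f(r e^{iθ})|^s dθ)^{1/s}`. -/
noncomputable def hardyMean (s : ℝ) (f : ℂ → ℂ) (r : ℝ) : ℝ :=
  (1 / (2 * π) * ∫ θ in (0:ℝ)..(2 * π), ‖f ((r : ℂ) * Complex.exp (θ * Complex.I))‖ ^ s) ^ (1 / s)

/-- Membership in the Hardy space `H^s`: analytic on `𝔻` with `sup_{0<r<1} M_s(f, r) < ∞`. -/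
def IsHardy (s : ℝ) (f : ℂ → ℂ) : Prop :=
  DifferentiableOn ℂ f (ball (0:ℂ) 1) ∧ ∃ M : ℝ, ∀ r : ℝ, 0 < r → r < 1 → hardyMean s f r ≤ M

lemma piInv_toReal : ((ENNReal.ofReal π)⁻¹).toReal = π⁻¹ := by
  rw [ENNReal.toReal_inv, ENNReal.toReal_ofReal Real.pi_pos.le]

lemma piInv_ne_zero : (ENNReal.ofReal π)⁻¹ ≠ 0 := by
  simp

lemma piInv_ne_top : (ENNReal.ofReal π)⁻¹ ≠ ⊤ := by
  simp [Real.pi_pos]

instance : IsFiniteMeasure σ := by
  unfold σ
  have : IsFiniteMeasure (volume.restrict (ball (0:ℂ) 1)) :=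
    ⟨by rw [Measure.restrict_apply_univ]; exact measure_ball_lt_top⟩
  exact Measure.smul_finite _ piInv_ne_top

lemma integrable_σ {E : Type*} [NormedAddCommGroup E] {f : ℂ → E} :
    Integrable f σ ↔ IntegrableOn f (ball (0:ℂ) 1) := by
  unfold σ
  exact integrable_smul_measure piInv_ne_zero piInv_ne_top

lemma integral_σ (f : ℂ → ℂ) : ∫ z, f z ∂σ = ((π⁻¹ : ℝ) : ℂ) * ∫ z in ball (0:ℂ) 1, f z := by
  unfold σ
  rw [integral_smul_measure, piInv_toReal, Complex.real_smul]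

lemma aesm_σ {f : ℂ → ℂ} (hf : ContinuousOn f (ball (0:ℂ) 1)) : AEStronglyMeasurable f σ := by
  unfold σ
  exact (hf.aestronglyMeasurable measurableSet_ball).mono_ac Measure.smul_absolutelyContinuous

lemma ae_ball : ∀ᵐ z ∂σ, z ∈ ball (0:ℂ) 1 := by
  unfold σ
  exact Measure.ae_smul_measure (ae_restrict_mem measurableSet_ball) _

lemma periodic_aux (s : ℝ) (f : ℂ → ℂ) (r : ℝ) :
    ∫ θ in (0:ℝ)..(2 * π), ‖f ((r : ℂ) * Complex.exp (θ * Complex.I))‖ ^ s =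
      ∫ θ in (-π)..π, ‖f (H959.Ryab.pt r θ)‖ ^ s := by
  have hper : Function.Periodic (fun θ : ℝ => ‖f (H959.Ryab.pt r θ)‖ ^ s) (2 * π) := by
    intro θ
    simp only [H959.Ryab.pt]
    rw [show ((θ + 2 * π : ℝ) : ℂ) * Complex.I = θ * Complex.I + 2 * π * Complex.I by
      push_cast; ring, Complex.exp_add, Complex.exp_two_pi_mul_I, mul_one]
  have h := hper.intervalIntegral_add_eq 0 (-π)
  rw [zero_add, show -π + 2 * π = π by ring] at h
  exact h

lemma hardy_iff {s : ℝ} (hs : 0 < s) {f : ℂ → ℂ} (hf : DifferentiableOn ℂ f (ball (0:ℂ) 1)) :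
    IsHardy s f ↔ ∃ M : ℝ, ∀ r : ℝ, 0 < r → r < 1 →
      ∫ θ in (-π)..π, ‖f (H959.Ryab.pt r θ)‖ ^ s ≤ M := by
  have hpi := Real.pi_pos
  have hnn : ∀ r : ℝ, 0 ≤ ∫ θ in (-π)..π, ‖f (H959.Ryab.pt r θ)‖ ^ s := fun r =>
    intervalIntegral.integral_nonneg (by linarith) (fun θ _ => by positivity)
  constructor
  · rintro ⟨_, M, hM⟩
    refine ⟨2 * π * |M| ^ s, fun r hr0 hr => ?_⟩
    have h1 := hM r hr0 hr
    unfold hardyMean at h1
    rw [periodic_aux] at h1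
    have h2 : (1 / (2 * π) * ∫ θ in (-π)..π, ‖f (H959.Ryab.pt r θ)‖ ^ s) ≤ |M| ^ s := by
      have h3 : 0 ≤ 1 / (2 * π) * ∫ θ in (-π)..π, ‖f (H959.Ryab.pt r θ)‖ ^ s :=
        mul_nonneg (by positivity) (hnn r)
      calc (1 / (2 * π) * ∫ θ in (-π)..π, ‖f (H959.Ryab.pt r θ)‖ ^ s)
          = ((1 / (2 * π) * ∫ θ in (-π)..π, ‖f (H959.Ryab.pt r θ)‖ ^ s) ^ (1 / s)) ^ s := by
            rw [← Real.rpow_mul h3, one_div_mul_cancel hs.ne', Real.rpow_one]
        _ ≤ |M| ^ s := Real.rpow_le_rpow (by positivity) (h1.trans (le_abs_self M)) hs.le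
    calc ∫ θ in (-π)..π, ‖f (H959.Ryab.pt r θ)‖ ^ s
        = 2 * π * (1 / (2 * π) * ∫ θ in (-π)..π, ‖f (H959.Ryab.pt r θ)‖ ^ s) := by
          field_simp
      _ ≤ 2 * π * |M| ^ s := by gcongr
  · rintro ⟨M, hM⟩
    refine ⟨hf, (1 / (2 * π) * M) ^ (1 / s), fun r hr0 hr => ?_⟩
    unfold hardyMean
    rw [periodic_aux]
    have h3 : 0 ≤ 1 / (2 * π) * ∫ θ in (-π)..π, ‖f (H959.Ryab.pt r θ)‖ ^ s :=
      mul_nonneg (by positivity) (hnn r)
    apply Real.rpow_le_rpow h3 _ (by positivity)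
    have := hM r hr0 hr
    gcongr

lemma int_eq_one {p : ℝ} (hp : 1 < p) {F : ℂ → ℂ} (h : bergmanNorm p F = 1) :
    ∫ z, ‖F z‖ ^ p ∂σ = 1 := by
  have h0 : 0 ≤ ∫ z, ‖F z‖ ^ p ∂σ := integral_nonneg fun z => by positivity
  unfold bergmanNorm at h
  calc ∫ z, ‖F z‖ ^ p ∂σ = ((∫ z, ‖F z‖ ^ p ∂σ) ^ (1 / p)) ^ p := by
        rw [← Real.rpow_mul h0, one_div_mul_cancel (by linarith), Real.rpow_one]
    _ = 1 := by rw [h, Real.one_rpow]

/-- **Converse of Ryabykh's theorem.** Let `1 < p < ∞` and `1 < q₁ < ∞`. If `F` is an extremal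
function for a kernel `k ∈ A^q`, `q = p/(p-1)`, and `F ∈ H^{(p-1)q₁}`, then `k ∈ H^{q₁}`. -/
theorem result : ∀ p q₁ : ℝ, 1 < p → 1 < q₁ → ∀ k F : ℂ → ℂ,
    IsBergman (p / (p - 1)) k → IsExtremal p k F → IsHardy ((p - 1) * q₁) F →
    IsHardy q₁ k := by
  intro p q₁ hp hq k F hk hF hH
  obtain ⟨hkd, hkint⟩ := hk
  obtain ⟨⟨hFd, hFint⟩, hF1, hFext⟩ := hF
  have hFm := aesm_σ hFd.continuousOn
  have hkm := aesm_σ hkd.continuousOn
  have hF1' := int_eq_one hp hF1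
  have hs0 : 0 < (p - 1) * q₁ := by
    have : 0 < p - 1 := by linarith
    positivity
  -- nonnegativity of the norm
  have hc : 0 ≤ (∫ z, F z * conj (k z) ∂σ).re := by
    have h1 := hFext (fun z => - F z) ⟨hFd.neg, by simpa using hFint⟩ (by
      unfold bergmanNorm at hF1 ⊢
      simpa using hF1)
    have h2 : functional k (fun z => - F z) = - functional k F := by
      unfold functional
      rw [← integral_neg]
      congr 1
      funext z
      ring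
    rw [h2, Complex.neg_re] at h1
    change 0 ≤ (functional k F).re
    linarith
  -- bounds for entire functions
  have hbd : ∀ h : ℂ → ℂ, Differentiable ℂ h → ∃ K : ℝ, 0 ≤ K ∧ ∀ᵐ z ∂σ, ‖h z‖ ≤ K := by
    intro h hh
    obtain ⟨K, hK⟩ := (isCompact_closedBall (0:ℂ) 1).exists_bound_of_continuousOn
      hh.continuous.continuousOn
    have hK0 : 0 ≤ K := le_trans (norm_nonneg _) (hK 0 (by simp))
    exact ⟨K, hK0, ae_ball.mono fun z hz => hK z (ball_subset_closedBall hz)⟩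
  have hvar : ∀ h : ℂ → ℂ, Differentiable ℂ h →
      ∫ z in ball (0:ℂ) 1, conj (k z) * h z =
        (((∫ z, F z * conj (k z) ∂σ).re : ℝ) : ℂ) *
          ∫ z in ball (0:ℂ) 1, H959.Ryab.H0 ((p - 2) / 2) F z * h z := by
    intro h hh
    obtain ⟨K, hK0, hK⟩ := hbd h hh
    have key := H959.Ryab.variation hp hFm hkm hFint hkint (h := h)
      (aesm_σ hh.continuous.continuousOn) hK0 hK hF1' hc ?_
    · rw [integral_σ (fun z => h z * conj (k z)),
        integral_σ (fun z => H959.Ryab.H0 ((p - 2) / 2) F z * h z)] at key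
      have hpi : ((π⁻¹ : ℝ) : ℂ) ≠ 0 := by
        exact_mod_cast (inv_pos.mpr Real.pi_pos).ne'
      have e : ∫ z in ball (0:ℂ) 1, conj (k z) * h z = ∫ z in ball (0:ℂ) 1, h z * conj (k z) := by
        congr 1
        funext z
        ring
      rw [e]
      apply mul_left_cancel₀ hpi
      rw [key]
      ring
    · intro v s hvs
      have hg : IsBergman p (fun z => s * (F z + v * h z)) := by
        refine ⟨(hFd.add (hh.differentiableOn.const_mul v)).const_mul s, ?_⟩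
        by_contra hcon
        rw [integral_undef hcon] at hvs
        exact zero_ne_one hvs
      exact hFext _ hg (by unfold bergmanNorm; rw [hvs, Real.one_rpow])
  have hH0 : ∀ h : ℂ → ℂ, Differentiable ℂ h →
      IntegrableOn (fun z => H959.Ryab.H0 ((p - 2) / 2) F z * h z) (ball (0:ℂ) 1) := by
    intro h hh
    obtain ⟨K, hK0, hK⟩ := hbd h hh
    rw [← integrable_σ]
    exact H959.Ryab.H0_integrable hp hFm hFint (aesm_σ hh.continuous.continuousOn) hK0 hK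
  have hkL1 : IntegrableOn k (ball (0:ℂ) 1) := by
    rw [← integrable_σ]
    have hp1 : 0 < p - 1 := by linarith
    have hq1 : 1 < p / (p - 1) := by rw [lt_div_iff₀ hp1]; linarith
    refine Integrable.mono' (H959.Ryab.integrable_add_const hq1 hkm hkint (K := 1) zero_le_one)
      hkm (Filter.Eventually.of_forall fun z => ?_)
    calc ‖k z‖ ≤ (‖k z‖ + 1) ^ (1 : ℝ) := by rw [Real.rpow_one]; linarith
      _ ≤ (‖k z‖ + 1) ^ (p / (p - 1)) := by
        apply Real.rpow_le_rpow_of_exponent_le _ hq1.le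
        linarith [norm_nonneg (k z)]
  obtain ⟨M, hM⟩ := (hardy_iff hs0 hFd).mp hH
  rw [hardy_iff (by linarith) hkd]
  exact H959.Ryab.core hp hq hkd hFd hkL1 _ hvar hH0 hM

end Pool.Agent.Results.MP_397fae_an.RyabykhConverse
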